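import Pool.Agent.R601.SelfRef.Main

set_option autoImplicit false

/-!
# A sound, `Pi^1_1`-definable extension of `Sigma^1_1-AC_0` that proves its own `Pi^1_1`-soundness

The language, structures, provability, `ACA_0`, the Goedel numbering, arithmetizations and the
reflection sentence are defined in the starting file `Pool/Agent/H986R3/SOADefs.lean` (there they
are used for the negative answer to the `Sigma^1_1` version of the question, `MP_3ad381_lc`);
`Sigma^1_1-AC_0` and `Pi^1_1` definitions of theories are in `Pool/Agent/R601/SelfRef/Defs.lean`.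

Idea. The theory is `T = Sigma^1_1-AC_0 + σ`, where `σ` is the `Pi^1_1` reflection sentence for the
`Pi^1_1` formula `τ(a)` that says: `a` is an axiom of `Sigma^1_1-AC_0`, or `a` is the sentence `σ`
and `Sigma^1_1-AC_0 + σ` is `Pi^1_1`-sound. (The second part is a `Pi^1_1` statement; the
self-reference is obtained with the diagonal method.) If `T` were not `Pi^1_1`-sound, then `τ` would
define `Sigma^1_1-AC_0` only, so `σ` would be true, and `T` would be sound. So `T` is
`Pi^1_1`-sound, `τ` defines `T`, and `T` proves its `Pi^1_1`-soundness for the definition `τ`,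
because this is its axiom `σ`. For the same reason `σ` is true.
-/

namespace Pool.Agent.Results.MP_51f008_lc.SelfSoundness

open Pool.Agent.H986R3.SOA Pool.Agent.R601.SelfRef

/-- For every arithmetization `𝒜` of the metamathematics of `L_2` and every arithmetical formula
`ax` that defines the set `AxSent` of axioms of `Sigma^1_1-AC_0` in the standard model: there is a
true sentence `σ` such that the theory `T = Sigma^1_1-AC_0 + σ` is `Pi^1_1`-sound and, for some
`Pi^1_1` formula `τ` that defines `T`, proves the sentence `∀ φ ∈ Pi^1_1 (Pr_τ(φ) → True(φ))`. -/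
theorem result (𝒜 : Arithmetization) (ax : Fm) (hax : DefinesAxioms ax) :
    ∃ σ : Fm, σ.IsSentence ∧ std.Holds σ ∧ ExtendsSigmaAC0 (AxSent ∪ {σ}) ∧
      Pi11Sound (AxSent ∪ {σ}) ∧ ProvesOwnSoundnessPi 𝒜 (AxSent ∪ {σ}) := by
  obtain ⟨σ, h1, h2, h3, h4, τ, h5, h6⟩ := main 𝒜 ax hax
  refine ⟨σ, h1, h2, h3, h4, τ, h5, ?_⟩
  intro M hM
  rw [← h6]
  exact hM σ (Or.inr rfl)

end Pool.Agent.Results.MP_51f008_lc.SelfSoundness
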